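import Mathlib
import Pool.Agent.BEB.Stmts

/-!
# BEB, row SUR (helper95): the operator Laplace + mu is onto on the odd polynomials
-/

set_option autoImplicit false

namespace Pool.Agent.BEB.H95

open Pool.Agent.BEB MvPolynomial

theorem lap_add (P Q : Pl) : lap (P + Q) = lap P + lap Q := by
  unfold lap
  simp only [map_add, Finset.sum_add_distrib]

theorem lap_zero : lap (0 : Pl) = 0 := by
  unfold lap
  simp only [map_zero, Finset.sum_const_zero]

theorem lap_C_mul (c : ℝ) (P : Pl) : lap (C c * P) = C c * lap P := by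
  unfold lap
  simp only [pderiv_C_mul, Finset.mul_sum, MvPolynomial.smul_eq_C_mul, map_smul]

theorem iter_zero (n : ℕ) : lap^[n] (0 : Pl) = 0 := by
  induction n with
  | zero => rfl
  | succ n ih => rw [Function.iterate_succ_apply, lap_zero, ih]

theorem iter_add (n : ℕ) (P Q : Pl) : lap^[n] (P + Q) = lap^[n] P + lap^[n] Q := by
  induction n generalizing P Q with
  | zero => rfl
  | succ n ih => rw [Function.iterate_succ_apply, Function.iterate_succ_apply,
      Function.iterate_succ_apply, lap_add, ih]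

theorem lap_hom {n : ℕ} {P : Pl} (h : P.IsHomogeneous n) : (lap P).IsHomogeneous (n - 1 - 1) := by
  unfold lap
  exact IsHomogeneous.sum _ _ _ (fun i _ => (h.pderiv (i := i)).pderiv (i := i))

theorem lap_small {n : ℕ} {P : Pl} (h : P.IsHomogeneous n) (hn : n ≤ 1) : lap P = 0 := by
  unfold lap
  refine Finset.sum_eq_zero (fun i _ => ?_)
  have h1 : (pderiv i P).IsHomogeneous (n - 1) := h.pderiv
  have h2 : (pderiv i P).totalDegree = 0 := by
    have := h1.totalDegree_le
    omega
  rw [totalDegree_eq_zero_iff_eq_C] at h2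
  rw [h2, pderiv_C]

theorem nil_hom (n : ℕ) : ∀ P : Pl, P.IsHomogeneous n → ∃ N : ℕ, lap^[N] P = 0 := by
  induction n using Nat.strong_induction_on with
  | _ n ih =>
    intro P hP
    by_cases hn : n ≤ 1
    · exact ⟨1, lap_small hP hn⟩
    · obtain ⟨N, hN⟩ := ih (n - 1 - 1) (by omega) (lap P) (lap_hom hP)
      exact ⟨N + 1, by rw [Function.iterate_succ_apply, hN]⟩

theorem nil (P : Pl) : ∃ N : ℕ, lap^[N] P = 0 := by
  induction P using MvPolynomial.induction_on' with
  | monomial u a => exact nil_hom _ _ (isHomogeneous_monomial a rfl)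
  | add p q hp hq =>
    obtain ⟨a, ha⟩ := hp
    obtain ⟨b, hb⟩ := hq
    refine ⟨a + b, ?_⟩
    rw [iter_add, Function.iterate_add_apply _ a b q, hb, iter_zero, add_zero, add_comm a b,
      Function.iterate_add_apply, ha, iter_zero]

theorem sur (odp : OdpStmt) : SurStmt := by
  obtain ⟨hadd, hC, _, hlap, _⟩ := odp
  intro μ P hμ hP
  have key : ∀ N : ℕ, ∀ P : Pl, OddP P → lap^[N] P = 0 →
      ∃ ψ : Pl, OddP ψ ∧ lap ψ + MvPolynomial.C μ * ψ = P := by
    intro N
    induction N with
    | zero =>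
      intro P hP h0
      have h0' : P = 0 := h0
      refine ⟨0, ?_, ?_⟩
      · rw [← h0']
        exact hP
      · rw [lap_zero, mul_zero, add_zero, h0']
    | succ N ih =>
      intro P hP h0
      rw [Function.iterate_succ_apply] at h0
      obtain ⟨ψ, h1, h2⟩ := ih (lap P) (hlap P hP) h0
      refine ⟨C μ⁻¹ * (P + C (-1) * ψ), hC _ _ (hadd _ _ hP (hC _ _ h1)), ?_⟩
      have e : (C μ * C μ⁻¹ : Pl) = 1 := by
        rw [← C_mul, mul_inv_cancel₀ hμ, C_1]
      have e1 : (C (-1) : Pl) = -1 := by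
        rw [C_neg, C_1]
      rw [lap_C_mul, lap_add, lap_C_mul, e1]
      linear_combination (-(C μ⁻¹ : Pl)) * h2 + P * e
  obtain ⟨N, hN⟩ := nil P
  exact key N P hP hN

end Pool.Agent.BEB.H95
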